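import Pool.Agent.Helper98.EQ.Goals
import Mathlib

/-!
# Project EQ (MP_5b9a11_al), packet SCH: the Schroedinger matrices
-/

set_option autoImplicit false

namespace Pool.Agent.Helper37.EQ.SCH

open Pool.Agent.Helper47.EP

variable {p : ℕ} (T : Dat p)

theorem w_skew (x y : T.K) : T.w y x = -T.w x y := by
  have h := T.alt (x + y)
  rw [map_add, map_add, AddMonoidHom.add_apply, AddMonoidHom.add_apply, T.alt, T.alt, zero_add,
    add_zero] at h
  exact eq_neg_of_add_eq_zero_left h

theorem w_nsmul_left (n : ℕ) (x y : T.K) : T.w (n • x) y = (n : ZMod T.l) * T.w x y := by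
  rw [map_nsmul, AddMonoidHom.nsmul_apply, nsmul_eq_mul]

theorem w_nsmul_right (n : ℕ) (x y : T.K) : T.w x (n • y) = (n : ZMod T.l) * T.w x y := by
  rw [map_nsmul, nsmul_eq_mul]

/-- a symplectic basis -/
theorem basis : ∃ x y : T.K, T.w x y = 1 := by
  have h1 : 1 < Fintype.card T.K := by
    rw [T.card]
    exact Nat.one_lt_pow two_ne_zero T.prime.one_lt
  obtain ⟨x, hx⟩ := Fintype.exists_ne_of_one_lt_card h1 0
  obtain ⟨y, hy⟩ := T.nondeg x hx
  refine ⟨x, (T.w x y)⁻¹.val • y, ?_⟩
  rw [w_nsmul_right, ZMod.natCast_zmod_val, inv_mul_cancel₀ hy]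

section

variable {T} {x y : T.K} (h : T.w x y = 1)

include h

theorem left (a b : ZMod T.l) : T.w (a.val • x + b.val • y) y = a := by
  rw [map_add, AddMonoidHom.add_apply, w_nsmul_left, w_nsmul_left, T.alt, h, mul_one, mul_zero,
    add_zero, ZMod.natCast_zmod_val]

theorem right (a b : ZMod T.l) : T.w x (a.val • x + b.val • y) = b := by
  rw [map_add, w_nsmul_right, w_nsmul_right, T.alt, h, mul_one, mul_zero, zero_add,
    ZMod.natCast_zmod_val]

theorem surj (k : T.K) : (T.w k y).val • x + (T.w x k).val • y = k := by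
  have hi : Function.Injective fun q : ZMod T.l × ZMod T.l => q.1.val • x + q.2.val • y := by
    intro q q' hq
    have h1 : T.w (q.1.val • x + q.2.val • y) y = T.w (q'.1.val • x + q'.2.val • y) y := by
      rw [show q.1.val • x + q.2.val • y = q'.1.val • x + q'.2.val • y from hq]
    have h2 : T.w x (q.1.val • x + q.2.val • y) = T.w x (q'.1.val • x + q'.2.val • y) := by
      rw [show q.1.val • x + q.2.val • y = q'.1.val • x + q'.2.val • y from hq]
    rw [left h, left h] at h1
    rw [right h, right h] at h2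
    exact Prod.ext h1 h2
  have hb : Function.Bijective fun q : ZMod T.l × ZMod T.l => q.1.val • x + q.2.val • y := by
    refine (Fintype.bijective_iff_injective_and_card _).2 ⟨hi, ?_⟩
    rw [T.card, Fintype.card_prod, ZMod.card, pow_two]
  obtain ⟨q, rfl⟩ := hb.2 k
  show (T.w (q.1.val • x + q.2.val • y) y).val • x + (T.w x (q.1.val • x + q.2.val • y)).val • y = _
  rw [left h, right h]

theorem w_eq (k k' : T.K) :
    T.w k k' = T.w k y * T.w x k' - T.w x k * T.w k' y := by
  conv_lhs => rw [← surj h k]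
  rw [map_add, AddMonoidHom.add_apply, w_nsmul_left, w_nsmul_left, w_skew T k' y,
    ZMod.natCast_zmod_val, ZMod.natCast_zmod_val]
  ring

theorem eq_zero (k : T.K) (h1 : T.w k y = 0) (h2 : T.w x k = 0) : k = 0 := by
  rw [← surj h k, h1, h2, ZMod.val_zero, zero_smul, zero_smul, add_zero]

end

/-- the matrices -/
def Sm {R : Type} [CommRing R] (C : Chr T R) (x₀ y₀ k : T.K) : Matrix (ZMod T.l) (ZMod T.l) R :=
  Matrix.of fun x y => if y = x + T.w k y₀ then
    C.ψ (T.w k y₀ * T.w x₀ k + 2 * T.w x₀ k * x) else 0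

theorem Sm_apply {R : Type} [CommRing R] (C : Chr T R) (x₀ y₀ k : T.K) (x y : ZMod T.l) :
    Sm T C x₀ y₀ k x y = if y = x + T.w k y₀ then
      C.ψ (T.w k y₀ * T.w x₀ k + 2 * T.w x₀ k * x) else 0 := rfl

theorem t : Pool.Agent.Helper98.EQ.S_SCH := by
  intro p _ T R _ C
  obtain ⟨x₀, y₀, h⟩ := basis T
  refine ⟨Sm T C x₀ y₀, ?_, ?_, ?_⟩
  · intro k k'
    ext x z
    rw [Matrix.mul_apply, Matrix.smul_apply]
    rw [Finset.sum_eq_single (x + T.w k y₀)]
    · rw [Sm_apply, Sm_apply, Sm_apply, if_pos rfl]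
      have h1 : T.w (k + k') y₀ = T.w k y₀ + T.w k' y₀ := by
        rw [map_add, AddMonoidHom.add_apply]
      have h2 : T.w x₀ (k + k') = T.w x₀ k + T.w x₀ k' := map_add _ _ _
      rw [h1, h2, smul_eq_mul]
      by_cases hz : z = x + T.w k y₀ + T.w k' y₀
      · rw [if_pos hz, if_pos (by rw [hz, add_assoc]), ← AddChar.map_add_eq_mul,
          ← AddChar.map_add_eq_mul, w_eq h k k']
        congr 1
        ring
      · rw [if_neg hz, if_neg (by rw [← add_assoc]; exact hz), mul_zero, mul_zero]
    · intro y _ hy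
      rw [Sm_apply, if_neg hy, zero_mul]
    · intro hx
      exact absurd (Finset.mem_univ _) hx
  · ext x y
    rw [Matrix.one_apply, Sm_apply]
    have h1 : T.w (0 : T.K) y₀ = 0 := by
      rw [map_zero]
      rfl
    have h2 : T.w x₀ 0 = 0 := map_zero _
    rw [h1, h2, add_zero, mul_zero, mul_zero, zero_mul, add_zero, AddChar.map_zero_eq_one]
    by_cases hxy : x = y
    · rw [if_pos hxy, if_pos hxy.symm]
    · rw [if_neg hxy, if_neg (Ne.symm hxy)]
  · intro k
    have htr : (Sm T C x₀ y₀ k).trace = ∑ x, Sm T C x₀ y₀ k x x := rfl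
    rw [htr]
    simp only [Sm_apply]
    by_cases h1 : T.w k y₀ = 0
    · rw [h1]
      simp only [add_zero, zero_mul, zero_add, if_true]
      by_cases hk : k = 0
      · rw [if_pos hk, hk]
        have h2 : T.w x₀ 0 = 0 := map_zero _
        rw [h2]
        simp only [mul_zero, zero_mul, AddChar.map_zero_eq_one, Finset.sum_const,
          Finset.card_univ, ZMod.card, nsmul_eq_mul, mul_one]
      · rw [if_neg hk]
        refine C.sum_zero _ ?_
        intro h2
        rcases mul_eq_zero.1 h2 with h3 | h3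
        · have h4 : ((2 : ℕ) : ZMod T.l) = 0 := by exact_mod_cast h3
          rw [ZMod.natCast_eq_zero_iff] at h4
          exact T.ne2 ((Nat.prime_dvd_prime_iff_eq T.prime Nat.prime_two).1 h4)
        · exact hk (eq_zero h k h1 h3)
    · have hk : k ≠ 0 := by
        intro hk
        apply h1
        rw [hk, map_zero]
        rfl
      rw [if_neg hk]
      refine Finset.sum_eq_zero fun x _ => ?_
      rw [if_neg]
      intro hx
      exact h1 (left_eq_add.1 hx)

end Pool.Agent.Helper37.EQ.SCH
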